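import Mathlib

/-! Non-nested monochromatic matchings in ordered complete graphs: basic tools. -/

namespace Pool.Agent.H168R2.NN

open Finset

/-- `e` and `f` are disjoint, not nested, and `e` comes first. -/
def Bef (e f : ℕ × ℕ) : Prop := e.1 < f.1 ∧ e.2 < f.2 ∧ e.2 ≠ f.1

/-- `M` is a non-nested matching all of whose edges have colour `b`. -/
def IsM (c : ℕ → ℕ → Bool) (b : Bool) (M : Finset (ℕ × ℕ)) : Prop :=
  (∀ e ∈ M, e.1 < e.2 ∧ c e.1 e.2 = b) ∧ ∀ e ∈ M, ∀ f ∈ M, e ≠ f → Bef e f ∨ Bef f e

variable {c : ℕ → ℕ → Bool} {b : Bool}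

theorem IsM.subset {M N : Finset (ℕ × ℕ)} (h : IsM c b M) (hs : N ⊆ M) : IsM c b N :=
  ⟨fun e he => h.1 e (hs he), fun e he f hf hne => h.2 e (hs he) f (hs hf) hne⟩

theorem isM_empty : IsM c b ∅ := ⟨by simp, by simp⟩

theorem isM_singleton {u w : ℕ} (h : u < w) (hc : c u w = b) : IsM c b {(u, w)} := by
  refine ⟨by simp [h, hc], ?_⟩
  intro e he f hf hne
  simp only [mem_singleton] at he hf
  exact absurd (he.trans hf.symm) hne

theorem IsM.union {M N : Finset (ℕ × ℕ)} (hM : IsM c b M) (hN : IsM c b N)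
    (h : ∀ e ∈ M, ∀ f ∈ N, Bef e f) : IsM c b (M ∪ N) := by
  refine ⟨?_, ?_⟩
  · intro e he
    rcases mem_union.1 he with he | he
    · exact hM.1 e he
    · exact hN.1 e he
  · intro e he f hf hne
    rcases mem_union.1 he with he | he <;> rcases mem_union.1 hf with hf | hf
    · exact hM.2 e he f hf hne
    · exact Or.inl (h e he f hf)
    · exact Or.inr (h f hf e he)
    · exact hN.2 e he f hf hne

theorem card_union_bef {M N : Finset (ℕ × ℕ)} (h : ∀ e ∈ M, ∀ f ∈ N, Bef e f) :
    (M ∪ N).card = M.card + N.card := by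
  apply card_union_of_disjoint
  rw [disjoint_left]
  intro e he hf
  exact absurd (h e he e hf).1 (lt_irrefl _)

open Classical in
/-- Largest size of a non-nested matching of colour `b` with left ends in `X`, right ends in `Y`. -/
noncomputable def mx (c : ℕ → ℕ → Bool) (b : Bool) (X Y : Finset ℕ) : ℕ :=
  ((X ×ˢ Y).powerset.filter (fun M => IsM c b M)).sup Finset.card

theorem le_mx {X Y : Finset ℕ} {M : Finset (ℕ × ℕ)} (h : IsM c b M)
    (hs : ∀ e ∈ M, e.1 ∈ X ∧ e.2 ∈ Y) : M.card ≤ mx c b X Y := by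
  classical
  unfold mx
  apply Finset.le_sup (f := Finset.card)
  simp only [mem_filter, mem_powerset]
  exact ⟨fun e he => mem_product.2 (hs e he), h⟩

theorem exists_mx (c : ℕ → ℕ → Bool) (b : Bool) (X Y : Finset ℕ) :
    ∃ M : Finset (ℕ × ℕ), IsM c b M ∧ (∀ e ∈ M, e.1 ∈ X ∧ e.2 ∈ Y) ∧ M.card = mx c b X Y := by
  classical
  have hne : ((X ×ˢ Y).powerset.filter (fun M => IsM c b M)).Nonempty := by
    refine ⟨∅, ?_⟩
    simp [isM_empty]
  obtain ⟨M, hM, hc⟩ := Finset.exists_mem_eq_sup _ hne Finset.card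
  simp only [mem_filter, mem_powerset] at hM
  exact ⟨M, hM.2, fun e he => mem_product.1 (hM.1 he), hc.symm⟩

theorem mx_le {X Y : Finset ℕ} {k : ℕ} (h : ∀ M : Finset (ℕ × ℕ), IsM c b M →
    (∀ e ∈ M, e.1 ∈ X ∧ e.2 ∈ Y) → M.card ≤ k) : mx c b X Y ≤ k := by
  obtain ⟨M, h1, h2, h3⟩ := exists_mx c b X Y
  rw [← h3]; exact h M h1 h2

theorem mx_mono {X Y X' Y' : Finset ℕ} (hX : X ⊆ X') (hY : Y ⊆ Y') :
    mx c b X Y ≤ mx c b X' Y' :=
  mx_le fun _ h1 h2 => le_mx h1 fun e he => ⟨hX (h2 e he).1, hY (h2 e he).2⟩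

theorem mx_insert_left (v : ℕ) (X Y : Finset ℕ) : mx c b (insert v X) Y ≤ mx c b X Y + 1 := by
  refine mx_le fun M h1 h2 => ?_
  by_cases hv : ∃ e ∈ M, e.1 = v
  · obtain ⟨e, he, hev⟩ := hv
    have : (M.erase e).card ≤ mx c b X Y := by
      refine le_mx (h1.subset (erase_subset _ _)) fun f hf => ?_
      rw [mem_erase] at hf
      refine ⟨?_, (h2 f hf.2).2⟩
      have h3 := (h2 f hf.2).1
      rcases mem_insert.1 h3 with h3 | h3
      · exfalso
        rcases h1.2 f hf.2 e he hf.1 with h4 | h4
        · have := h4.1; omega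
        · have := h4.1; omega
      · exact h3
    rw [card_erase_of_mem he] at this
    omega
  · push Not at hv
    have := le_mx (X := X) (Y := Y) h1 fun e he => ⟨by
      rcases mem_insert.1 (h2 e he).1 with h3 | h3
      · exact absurd h3 (hv e he)
      · exact h3, (h2 e he).2⟩
    omega

theorem mx_insert_right (v : ℕ) (X Y : Finset ℕ) : mx c b X (insert v Y) ≤ mx c b X Y + 1 := by
  refine mx_le fun M h1 h2 => ?_
  by_cases hv : ∃ e ∈ M, e.2 = v
  · obtain ⟨e, he, hev⟩ := hv
    have : (M.erase e).card ≤ mx c b X Y := by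
      refine le_mx (h1.subset (erase_subset _ _)) fun f hf => ?_
      rw [mem_erase] at hf
      refine ⟨(h2 f hf.2).1, ?_⟩
      have h3 := (h2 f hf.2).2
      rcases mem_insert.1 h3 with h3 | h3
      · exfalso
        rcases h1.2 f hf.2 e he hf.1 with h4 | h4
        · have := h4.2.1; omega
        · have := h4.2.1; omega
      · exact h3
    rw [card_erase_of_mem he] at this
    omega
  · push Not at hv
    have := le_mx (X := X) (Y := Y) h1 fun e he => ⟨(h2 e he).1, by
      rcases mem_insert.1 (h2 e he).2 with h3 | h3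
      · exact absurd h3 (hv e he)
      · exact h3⟩
    omega

/-- Pairing two sets of the same size monotonically. -/
theorem exists_pair (c : ℕ → ℕ → Bool) {X X' : Finset ℕ} (hlt : ∀ x ∈ X, ∀ y ∈ X', x < y)
    {n : ℕ} (hX : X.card = n) (hX' : X'.card = n) :
    ∃ N : Bool → Finset (ℕ × ℕ), (∀ b, IsM c b (N b)) ∧
      (∀ b, ∀ e ∈ N b, e.1 ∈ X ∧ e.2 ∈ X') ∧ (N true).card + (N false).card = n := by
  classical
  let e1 := X.orderEmbOfFin hX
  let e2 := X'.orderEmbOfFin hX'
  let P : Fin n → ℕ × ℕ := fun i => (e1 i, e2 i)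
  have hP : Function.Injective P := by
    intro i j h
    have : e1 i = e1 j := congrArg Prod.fst h
    exact e1.injective this
  refine ⟨fun b => (univ.filter (fun i => c (P i).1 (P i).2 = b)).image P, ?_, ?_, ?_⟩
  · intro b
    refine ⟨?_, ?_⟩
    · intro e he
      simp only [mem_image, mem_filter, mem_univ, true_and] at he
      obtain ⟨i, hi, rfl⟩ := he
      exact ⟨hlt _ (X.orderEmbOfFin_mem hX i) _ (X'.orderEmbOfFin_mem hX' i), hi⟩
    · intro e he f hf hne
      simp only [mem_image, mem_filter, mem_univ, true_and] at he hf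
      obtain ⟨i, hi, rfl⟩ := he
      obtain ⟨j, hj, rfl⟩ := hf
      have hij : i ≠ j := fun h => hne (by rw [h])
      rcases lt_or_gt_of_ne hij with h | h
      · left
        refine ⟨e1.strictMono h, e2.strictMono h, ?_⟩
        have := hlt _ (X.orderEmbOfFin_mem hX j) _ (X'.orderEmbOfFin_mem hX' i)
        exact ne_of_gt this
      · right
        refine ⟨e1.strictMono h, e2.strictMono h, ?_⟩
        have := hlt _ (X.orderEmbOfFin_mem hX i) _ (X'.orderEmbOfFin_mem hX' j)
        exact ne_of_gt this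
  · intro b e he
    simp only [mem_image, mem_filter, mem_univ, true_and] at he
    obtain ⟨i, hi, rfl⟩ := he
    exact ⟨X.orderEmbOfFin_mem hX i, X'.orderEmbOfFin_mem hX' i⟩
  · rw [card_image_of_injective _ hP, card_image_of_injective _ hP]
    have h1 := Finset.card_filter_add_card_filter_not (s := (univ : Finset (Fin n)))
      (fun i => c (P i).1 (P i).2 = true)
    have h2 : (univ.filter (fun i : Fin n => ¬ c (P i).1 (P i).2 = true))
        = univ.filter (fun i => c (P i).1 (P i).2 = false) := by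
      ext i; simp
    rw [h2] at h1
    simpa using h1

/-- The crossing inequality. -/
theorem crossing (c : ℕ → ℕ → Bool) {m w s t a b β ρ : ℕ} (hws : w ≤ s) (hst : s ≤ t) (htm : t ≤ m)
    (hR : mx c true (Ico 0 m) (Ico 0 m) ≤ a) (hB : mx c false (Ico 0 m) (Ico 0 m) ≤ b)
    (hβ : mx c false (Ico 0 w) (Ico 0 s) = β) (hρ : mx c true (Ico s m) (Ico t m) = ρ)
    (h1 : a + β + 1 ≤ (s - w) + ρ) (h2 : b + ρ + 1 ≤ (t - s) + β)
    (h3 : (t - s) + β + a + b < m) (h4 : (s - w) + ρ + a + b < m) : False := by
  classical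
  obtain ⟨M0, hM0, hM0s, hM0c⟩ := exists_mx c false (Ico 0 w) (Ico 0 s)
  obtain ⟨N0, hN0, hN0s, hN0c⟩ := exists_mx c true (Ico s m) (Ico t m)
  have hρa : ρ ≤ a := by
    rw [← hρ]; refine le_trans (mx_mono ?_ ?_) hR <;>
    · intro x hx; simp only [mem_Ico] at hx ⊢; omega
  have hβb : β ≤ b := by
    rw [← hβ]; refine le_trans (mx_mono ?_ ?_) hB <;>
    · intro x hx; simp only [mem_Ico] at hx ⊢; omega
  set Y := Ico w s \ M0.image Prod.snd with hY
  set Y' := Ico s t \ N0.image Prod.fst with hY'
  have hYc : (s - w) - β ≤ Y.card := by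
    have h5 : (Ico w s).card - (M0.image Prod.snd).card ≤ Y.card :=
      Finset.le_card_sdiff (M0.image Prod.snd) (Ico w s)
    have h6 : (M0.image Prod.snd).card ≤ β := by rw [← hβ, ← hM0c]; exact card_image_le
    rw [Nat.card_Ico] at h5
    omega
  have hYc' : (t - s) - ρ ≤ Y'.card := by
    have h5 : (Ico s t).card - (N0.image Prod.fst).card ≤ Y'.card :=
      Finset.le_card_sdiff (N0.image Prod.fst) (Ico s t)
    have h6 : (N0.image Prod.fst).card ≤ ρ := by rw [← hρ, ← hN0c]; exact card_image_le
    rw [Nat.card_Ico] at h5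
    omega
  set x := min ((s - w) - β) ((t - s) - ρ) with hx
  obtain ⟨Yx, hYx, hYxc⟩ := Finset.exists_subset_card_eq (le_trans (min_le_left _ _) hYc : x ≤ Y.card)
  obtain ⟨Yx', hYx', hYxc'⟩ :=
    Finset.exists_subset_card_eq (le_trans (min_le_right _ _) hYc' : x ≤ Y'.card)
  have hYm : ∀ y ∈ Yx, w ≤ y ∧ y < s ∧ ∀ e ∈ M0, e.2 ≠ y := by
    intro y hy
    have := hYx hy
    rw [hY, mem_sdiff, mem_Ico] at this
    refine ⟨this.1.1, this.1.2, fun e he h => this.2 (mem_image.2 ⟨e, he, h⟩)⟩
  have hYm' : ∀ y ∈ Yx', s ≤ y ∧ y < t ∧ ∀ e ∈ N0, e.1 ≠ y := by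
    intro y hy
    have := hYx' hy
    rw [hY', mem_sdiff, mem_Ico] at this
    refine ⟨this.1.1, this.1.2, fun e he h => this.2 (mem_image.2 ⟨e, he, h⟩)⟩
  obtain ⟨C, hC, hCs, hCc⟩ := exists_pair c (X := Yx) (X' := Yx') (n := x)
    (fun y hy z hz => lt_of_lt_of_le (hYm y hy).2.1 (hYm' z hz).1) hYxc hYxc'
  -- red part
  have hred : w + (C true).card + ρ ≤ a + β := by
    set U := (C true).image Prod.fst with hU
    have hUc : U.card ≤ (C true).card := card_image_le
    have hZ : (s - w) - (C true).card ≤ (Ico w s \ U).card := by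
      have h5 := Finset.le_card_sdiff U (Ico w s)
      rw [Nat.card_Ico] at h5
      omega
    set n1 := min w ((s - w) - (C true).card) with hn1
    obtain ⟨A1, hA1, hA1c⟩ := Finset.exists_subset_card_eq
      (show n1 ≤ (Ico 0 w).card by rw [Nat.card_Ico]; exact le_trans (min_le_left _ _) (by omega))
    obtain ⟨B1, hB1, hB1c⟩ := Finset.exists_subset_card_eq (le_trans (min_le_right _ _) hZ : n1 ≤ _)
    have hA1m : ∀ y ∈ A1, y < w := fun y hy => (mem_Ico.1 (hA1 hy)).2
    have hB1m : ∀ y ∈ B1, w ≤ y ∧ y < s ∧ ∀ e ∈ C true, e.1 ≠ y := by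
      intro y hy
      have := hB1 hy
      rw [mem_sdiff, mem_Ico] at this
      exact ⟨this.1.1, this.1.2, fun e he h => this.2 (mem_image.2 ⟨e, he, h⟩)⟩
    obtain ⟨D, hD, hDs, hDc⟩ := exists_pair c (X := A1) (X' := B1) (n := n1)
      (fun y hy z hz => lt_of_lt_of_le (hA1m y hy) (hB1m z hz).1) hA1c hB1c
    have hDf : (D false).card ≤ β := by
      rw [← hβ]
      refine le_mx (hD false) fun e he => ?_
      have h5 := hA1m _ (hDs false e he).1
      have h6 := hB1m _ (hDs false e he).2
      simp only [mem_Ico]; omega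
    have hbef1 : ∀ e ∈ D true, ∀ f ∈ C true, Bef e f := by
      intro e he f hf
      have h5 := hA1m _ (hDs true e he).1
      have h6 := hB1m _ (hDs true e he).2
      have h7 := hYm _ (hCs true f hf).1
      have h8 := hYm' _ (hCs true f hf).2
      refine ⟨by omega, by omega, ?_⟩
      exact fun h => h6.2.2 f hf h.symm
    have hbef2 : ∀ e ∈ D true ∪ C true, ∀ f ∈ N0, Bef e f := by
      intro e he f hf
      have hf' := hN0s f hf
      simp only [mem_Ico] at hf'
      rcases mem_union.1 he with he | he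
      · have h5 := hA1m _ (hDs true e he).1
        have h6 := hB1m _ (hDs true e he).2
        exact ⟨by omega, by omega, by omega⟩
      · have h7 := hYm _ (hCs true e he).1
        have h8 := hYm' _ (hCs true e he).2
        exact ⟨by omega, by omega, fun h => h8.2.2 f hf h.symm⟩
    have hM := ((hD true).union (hC true) hbef1).union hN0 hbef2
    have hcard := card_union_bef hbef2
    rw [card_union_bef hbef1] at hcard
    have hle : ((D true ∪ C true) ∪ N0).card ≤ a := by
      refine le_trans (le_mx hM ?_) hR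
      intro e he
      simp only [mem_Ico]
      rcases mem_union.1 he with he | he
      · rcases mem_union.1 he with he | he
        · have h5 := hA1m _ (hDs true e he).1
          have h6 := hB1m _ (hDs true e he).2
          omega
        · have h7 := hYm _ (hCs true e he).1
          have h8 := hYm' _ (hCs true e he).2
          omega
      · have hf' := hN0s e he
        simp only [mem_Ico] at hf'
        omega
    rcases min_choice w ((s - w) - (C true).card) with h | h <;> omega
  have hblue : (m - t) + (C false).card + β ≤ b + ρ := by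
    set U := (C false).image Prod.snd with hU
    have hUc : U.card ≤ (C false).card := card_image_le
    have hZ : (t - s) - (C false).card ≤ (Ico s t \ U).card := by
      have h5 := Finset.le_card_sdiff U (Ico s t)
      rw [Nat.card_Ico] at h5
      omega
    set n1 := min (m - t) ((t - s) - (C false).card) with hn1
    obtain ⟨A1, hA1, hA1c⟩ := Finset.exists_subset_card_eq
      (show n1 ≤ (Ico t m).card by rw [Nat.card_Ico]; exact le_trans (min_le_left _ _) (by omega))
    obtain ⟨B1, hB1, hB1c⟩ := Finset.exists_subset_card_eq (le_trans (min_le_right _ _) hZ : n1 ≤ _)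
    have hA1m : ∀ y ∈ A1, t ≤ y ∧ y < m := fun y hy => (mem_Ico.1 (hA1 hy))
    have hB1m : ∀ y ∈ B1, s ≤ y ∧ y < t ∧ ∀ e ∈ C false, e.2 ≠ y := by
      intro y hy
      have := hB1 hy
      rw [mem_sdiff, mem_Ico] at this
      exact ⟨this.1.1, this.1.2, fun e he h => this.2 (mem_image.2 ⟨e, he, h⟩)⟩
    obtain ⟨D, hD, hDs, hDc⟩ := exists_pair c (X := B1) (X' := A1) (n := n1)
      (fun y hy z hz => lt_of_lt_of_le (hB1m y hy).2.1 (hA1m z hz).1) hB1c hA1c
    have hDf : (D true).card ≤ ρ := by
      rw [← hρ]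
      refine le_mx (hD true) fun e he => ?_
      have h5 := hB1m _ (hDs true e he).1
      have h6 := hA1m _ (hDs true e he).2
      simp only [mem_Ico]; omega
    have hbef1 : ∀ e ∈ C false, ∀ f ∈ D false, Bef e f := by
      intro e he f hf
      have h5 := hB1m _ (hDs false f hf).1
      have h6 := hA1m _ (hDs false f hf).2
      have h7 := hYm _ (hCs false e he).1
      have h8 := hYm' _ (hCs false e he).2
      refine ⟨by omega, by omega, ?_⟩
      exact fun h => h5.2.2 e he h
    have hbef2 : ∀ e ∈ M0, ∀ f ∈ C false ∪ D false, Bef e f := by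
      intro e he f hf
      have he' := hM0s e he
      simp only [mem_Ico] at he'
      rcases mem_union.1 hf with hf | hf
      · have h7 := hYm _ (hCs false f hf).1
        have h8 := hYm' _ (hCs false f hf).2
        exact ⟨by omega, by omega, fun h => h7.2.2 e he h⟩
      · have h5 := hB1m _ (hDs false f hf).1
        have h6 := hA1m _ (hDs false f hf).2
        exact ⟨by omega, by omega, by omega⟩
    have hM := hM0.union ((hC false).union (hD false) hbef1) hbef2
    have hcard := card_union_bef hbef2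
    rw [card_union_bef hbef1] at hcard
    have hle : (M0 ∪ (C false ∪ D false)).card ≤ b := by
      refine le_trans (le_mx hM ?_) hB
      intro e he
      simp only [mem_Ico]
      rcases mem_union.1 he with he | he
      · have hf' := hM0s e he
        simp only [mem_Ico] at hf'
        omega
      · rcases mem_union.1 he with he | he
        · have h7 := hYm _ (hCs false e he).1
          have h8 := hYm' _ (hCs false e he).2
          omega
        · have h5 := hB1m _ (hDs false e he).1
          have h6 := hA1m _ (hDs false e he).2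
          omega
    rcases min_choice (m - t) ((t - s) - (C false).card) with h | h <;> omega
  rcases min_choice ((s - w) - β) ((t - s) - ρ) with h | h <;> omega

end Pool.Agent.H168R2.NN
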