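import Mathlib

/-! Definitions for non-nested matchings in 2-coloured ordered complete graphs. -/

namespace Pool.Agent.H168R2.NNDefs

/-- The disjoint edges `e` and `f` (smaller end first) are nested. -/
def Nested {m : ℕ} (e f : Fin m × Fin m) : Prop :=
  (e.1 < f.1 ∧ f.2 < e.2) ∨ (f.1 < e.1 ∧ e.2 < f.2)

/-- `M` is a non-nested matching of the ordered complete graph on `Fin m`: a set of edges
(smaller end first) that are pairwise vertex-disjoint and pairwise not nested. -/
def IsNonNestedMatching {m : ℕ} (M : Finset (Fin m × Fin m)) : Prop :=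
  (∀ e ∈ M, e.1 < e.2) ∧
  ∀ e ∈ M, ∀ f ∈ M, e ≠ f →
    (e.1 ≠ f.1 ∧ e.1 ≠ f.2 ∧ e.2 ≠ f.1 ∧ e.2 ≠ f.2) ∧ ¬ Nested e f

/-- In the colouring `c` there is a non-nested matching of size `n` all of whose edges have
colour `b`. -/
def HasMatching {m : ℕ} (c : Fin m → Fin m → Bool) (b : Bool) (n : ℕ) : Prop :=
  ∃ M : Finset (Fin m × Fin m), IsNonNestedMatching M ∧ (∀ e ∈ M, c e.1 e.2 = b) ∧ M.card = n

/-- Every 2-colouring of the edges of the ordered `K_m` has a monochromatic non-nested matching
of size `n`. -/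
def Arrows (m n : ℕ) : Prop :=
  ∀ c : Fin m → Fin m → Bool, ∃ b : Bool, HasMatching c b n

/-- The least `m ≥ 2` such that every 2-colouring of the edges of the ordered `K_m` has a
monochromatic non-nested matching of size `n`. -/
noncomputable def f (n : ℕ) : ℕ := sInf {m | 2 ≤ m ∧ Arrows m n}

end Pool.Agent.H168R2.NNDefs
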