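import Pool.Agent.H168R2.NN.Tools
import Pool.Agent.H168R2.NN.Defs

/-! From the working definitions on `ℕ` to `Fin m`. -/

namespace Pool.Agent.H168R2.NN

open Finset Pool.Agent.H168R2.NNDefs

/-- Extend a colouring of `Fin m` to `ℕ`. -/
def ext {m : ℕ} (c : Fin m → Fin m → Bool) : ℕ → ℕ → Bool :=
  fun i j => if h : i < m ∧ j < m then c ⟨i, h.1⟩ ⟨j, h.2⟩ else false

theorem hasMatching_of_le {m : ℕ} (c : Fin m → Fin m → Bool) (b : Bool) {n : ℕ}
    (h : n ≤ nu (ext c) b 0 m) : HasMatching c b n := by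
  classical
  obtain ⟨M, hM, hMs, hMc⟩ := exists_nu (ext c) b 0 m
  obtain ⟨M', hM', hMc'⟩ := Finset.exists_subset_card_eq (h.trans hMc.ge)
  let g : {e // e ∈ M'} → Fin m × Fin m := fun e =>
    (⟨e.1.1, by have := hMs _ (hM' e.2); omega⟩, ⟨e.1.2, by have := hMs _ (hM' e.2); omega⟩)
  have hg : Function.Injective g := by
    intro e f hef
    have h1 := congrArg (fun x => (x.1 : ℕ)) hef
    have h2 := congrArg (fun x => (x.2 : ℕ)) hef
    simp only [g] at h1 h2
    exact Subtype.ext (Prod.ext h1 h2)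
  refine ⟨M'.attach.image g, ⟨?_, ?_⟩, ?_, ?_⟩
  · intro e he
    obtain ⟨x, -, rfl⟩ := mem_image.1 he
    have := hMs _ (hM' x.2)
    exact this.2.1
  · intro e he f hf hne
    obtain ⟨x, -, rfl⟩ := mem_image.1 he
    obtain ⟨y, -, rfl⟩ := mem_image.1 hf
    have hxy : x.1 ≠ y.1 := fun h => hne (by rw [Subtype.ext h])
    have h1 := hMs _ (hM' x.2)
    have h2 := hMs _ (hM' y.2)
    simp only [g, Nested, Fin.lt_def, ne_eq, Fin.ext_iff]
    rcases hM.2 _ (hM' x.2) _ (hM' y.2) hxy with h3 | h3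
    · obtain ⟨h4, h5, h6⟩ := h3
      omega
    · obtain ⟨h4, h5, h6⟩ := h3
      omega
  · intro e he
    obtain ⟨x, -, rfl⟩ := mem_image.1 he
    have h1 := hMs _ (hM' x.2)
    have h2 := (hM.1 _ (hM' x.2)).2
    have h3 : x.1.1 < m ∧ x.1.2 < m := ⟨by omega, by omega⟩
    simp only [ext, h3, and_self, dite_true] at h2
    exact h2
  · rw [card_image_of_injective _ hg, card_attach, hMc']

end Pool.Agent.H168R2.NN
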