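import Pool.Agent.H168R2.NN.Tools

/-! The bound `2 n ≤ 4 max + 3 min + 2`. -/

namespace Pool.Agent.H168R2.NN

open Finset

variable {c : ℕ → ℕ → Bool} {b : Bool}

theorem two_mul_nu_le (c : ℕ → ℕ → Bool) (b : Bool) (lo hi : ℕ) : 2 * nu c b lo hi ≤ hi - lo := by
  classical
  obtain ⟨M, hM, hMs, hMc⟩ := exists_nu c b lo hi
  have h1 : (M.image Prod.fst).card = M.card := by
    apply card_image_of_injOn
    intro e he f hf h
    by_contra hne
    rcases hM.2 e he f hf hne with h2 | h2
    · have := h2.1; omega
    · have := h2.1; omega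
  have h2 : (M.image Prod.snd).card = M.card := by
    apply card_image_of_injOn
    intro e he f hf h
    by_contra hne
    rcases hM.2 e he f hf hne with h2 | h2
    · have := h2.2.1; omega
    · have := h2.2.1; omega
  have h3 : Disjoint (M.image Prod.fst) (M.image Prod.snd) := by
    rw [disjoint_left]
    intro x hx hx'
    obtain ⟨e, he, rfl⟩ := mem_image.1 hx
    obtain ⟨f, hf, h⟩ := mem_image.1 hx'
    have h4 := hMs e he
    have h5 := hMs f hf
    by_cases hne : e = f
    · subst hne; omega
    · rcases hM.2 e he f hf hne with h2 | h2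
      · have := h2.1; omega
      · exact h2.2.2 h
  have h4 : M.image Prod.fst ∪ M.image Prod.snd ⊆ Ico lo hi := by
    intro x hx
    rw [mem_Ico]
    rcases mem_union.1 hx with hx | hx
    · obtain ⟨e, he, rfl⟩ := mem_image.1 hx
      have := hMs e he; omega
    · obtain ⟨e, he, rfl⟩ := mem_image.1 hx
      have := hMs e he; omega
  have h5 := card_le_card h4
  rw [card_union_of_disjoint h3, h1, h2, Nat.card_Ico] at h5
  omega

theorem nu_not (c : ℕ → ℕ → Bool) (b : Bool) (lo hi : ℕ) :
    nu (fun i j => !c i j) b lo hi = nu c (!b) lo hi := by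
  have key : ∀ (c : ℕ → ℕ → Bool) (b : Bool),
      nu (fun i j => !c i j) b lo hi ≤ nu c (!b) lo hi := by
    intro c b
    refine nu_le fun M hM hMs => le_nu ⟨fun e he => ?_, hM.2⟩ fun e he => ?_
    · have := hM.1 e he
      refine ⟨this.1, ?_⟩
      have h2 := this.2
      simp only at h2
      rw [← h2]; simp
    · have := hMs e he; omega
  apply le_antisymm (key c b)
  have := key (fun i j => !c i j) (!b)
  simpa using this

theorem one_le_nu {u w lo hi : ℕ} (h1 : lo ≤ u) (h2 : u < w) (h3 : w < hi) :
    1 ≤ nu c (c u w) lo hi := by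
  have := le_nu (lo := lo) (hi := hi) (isM_singleton (c := c) (b := c u w) h2 rfl) (by
    intro e he; rw [mem_singleton] at he; subst he; exact ⟨h1, h3⟩)
  simpa using this

/-- The final case of the induction. -/
theorem final_case (c : ℕ → ℕ → Bool) {n : ℕ} (hn : 4 ≤ n)
    (IH : ∀ n' < n, ∀ (c : ℕ → ℕ → Bool) (lo : ℕ), 2 * n' ≤ 4 * max (nu c true lo (lo + n'))
      (nu c false lo (lo + n')) + 3 * min (nu c true lo (lo + n')) (nu c false lo (lo + n')) + 2)
    (hbad : 4 * max (nu c true 0 n) (nu c false 0 n) + 3 * min (nu c true 0 n) (nu c false 0 n) + 2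
      < 2 * n)
    (htype : ∀ s, 2 ≤ s → s + 2 ≤ n → nu c false 0 s < nu c true 0 s ∧
      nu c true s n < nu c false s n) : False := by
  have hadd : ∀ b s, s ≤ n → nu c b 0 s + nu c b s n ≤ nu c b 0 n := fun b s hs =>
    nu_add (by omega) hs
  -- cut at 2
  have h2 := htype 2 le_rfl (by omega)
  have h2t := hadd true 2 (by omega)
  have h2f := hadd false 2 (by omega)
  have hIH2 := IH (n - 2) (by omega) c 2
  rw [show 2 + (n - 2) = n by omega] at hIH2
  -- cut at n - 2
  have h3 := htype (n - 2) (by omega) (by omega)
  have h3t := hadd true (n - 2) (by omega)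
  have h3f := hadd false (n - 2) (by omega)
  have hIH3 := IH (n - 2) (by omega) c 0
  rw [zero_add] at hIH3
  have hRB : nu c true 0 n = nu c false 0 n := by omega
  set k := nu c true 0 n with hk
  have hnk : 2 * n = 7 * k + 3 := by omega
  have hk1 : 1 ≤ k := by omega
  have hkey : ∀ s, k + 1 ≤ s → s + k + 1 ≤ n →
      k + 1 ≤ 2 * nu c false 0 s ∨ k + 1 ≤ 2 * nu c true s n := by
    intro s hs1 hs2
    rcases keyLemma c (m := n) (s := s) (a := k) (b := k) le_rfl (by omega) hs1 hs2 with h | h
    · left; omega
    · right; omega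
  have hsum : ∀ s, 2 ≤ s → s + 2 ≤ n → nu c false 0 s + nu c true s n + 1 ≤ k := by
    intro s hs1 hs2
    have := htype s hs1 hs2
    have := hadd true s (by omega)
    omega
  -- at s = k + 1
  have hstart : k + 1 ≤ 2 * nu c true (k + 1) n := by
    rcases hkey (k + 1) le_rfl (by omega) with h | h
    · have h4 := two_mul_nu_le c true 0 (k + 1)
      have h5 := (htype (k + 1) (by omega) (by omega)).1
      omega
    · exact h
  have hend : ¬ (k + 1 ≤ 2 * nu c true (n - k - 1) n) := by
    have h4 := two_mul_nu_le c false (n - k - 1) n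
    have h5 := (htype (n - k - 1) (by omega) (by omega)).2
    omega
  obtain ⟨s, hs1, hs2, hs3, hs4⟩ : ∃ s, k + 1 ≤ s ∧ s < n - k - 1 ∧ k + 1 ≤ 2 * nu c true s n ∧
      ¬ (k + 1 ≤ 2 * nu c true (s + 1) n) := by
    by_contra hno
    push Not at hno
    have hind : ∀ s, k + 1 ≤ s → s ≤ n - k - 1 → k + 1 ≤ 2 * nu c true s n := by
      intro s hs
      induction s, hs using Nat.le_induction with
      | base => intro _; exact hstart
      | succ s hs ih => intro hs'; exact hno s hs (by omega) (ih (by omega))
    exact hend (hind _ (by omega) le_rfl)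
  have h6 := hkey (s + 1) (by omega) (by omega)
  have h7 := nu_succ_right (c := c) (b := false) 0 s
  have h8 := hsum s (by omega) (by omega)
  omega

theorem main_bound : ∀ (n : ℕ) (c : ℕ → ℕ → Bool) (lo : ℕ),
    2 * n ≤ 4 * max (nu c true lo (lo + n)) (nu c false lo (lo + n))
      + 3 * min (nu c true lo (lo + n)) (nu c false lo (lo + n)) + 2 := by
  intro n
  induction n using Nat.strong_induction_on with
  | _ n IH =>
  -- reduce to `lo = 0`
  suffices H : ∀ c : ℕ → ℕ → Bool, 2 * n ≤ 4 * max (nu c true 0 n) (nu c false 0 n)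
      + 3 * min (nu c true 0 n) (nu c false 0 n) + 2 by
    intro c lo
    have h := H (fun i j => c (i + lo) (j + lo))
    have h1 := nu_shift c true lo n
    have h2 := nu_shift c false lo n
    omega
  intro c
  by_contra hbad
  push Not at hbad
  rcases Nat.lt_or_ge n 4 with hn | hn
  · rcases Nat.lt_or_ge n 2 with hn2 | hn2
    · omega
    · have h1 : 1 ≤ nu c (c 0 1) 0 n := one_le_nu le_rfl (by omega) (by omega)
      cases hc : c 0 1 <;> rw [hc] at h1 <;> omega
  have hadd : ∀ b s, s ≤ n → nu c b 0 s + nu c b s n ≤ nu c b 0 n := fun b s hs =>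
    nu_add (by omega) hs
  have hcut : ∀ s, 2 ≤ s → s + 2 ≤ n →
      (nu c false 0 s < nu c true 0 s ∧ nu c true s n < nu c false s n) ∨
      (nu c true 0 s < nu c false 0 s ∧ nu c false s n < nu c true s n) := by
    intro s hs1 hs2
    by_contra hcon
    have ht := hadd true s (by omega)
    have hf := hadd false s (by omega)
    have hP := IH s (by omega) c 0
    rw [zero_add] at hP
    have hS := IH (n - s) (by omega) c s
    rw [show s + (n - s) = n by omega] at hS
    -- starred vertex in the first part
    have hu : ∃ u, 0 ≤ u ∧ u < s ∧ SR c true 0 s u ∧ SR c false 0 s u := by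
      by_contra hno
      obtain ⟨c2, hc2⟩ := starR c hno
      have h1 := hc2 true
      have h2 := hc2 false
      have h3 := IH (s + 1) (by omega) c2 0
      rw [zero_add] at h3
      omega
    have hw : ∃ w, s - 1 + 1 ≤ w ∧ w < n ∧ SL c true (s - 1 + 1) n w ∧
        SL c false (s - 1 + 1) n w := by
      by_contra hno
      obtain ⟨c2, hc2⟩ := starL c hno
      have h1 := hc2 true
      have h2 := hc2 false
      have h3 := IH (n - s + 1) (by omega) c2 (s - 1)
      rw [show s - 1 + (n - s + 1) = n by omega] at h3
      rw [show s - 1 + 1 = s by omega] at h1 h2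
      omega
    rw [show s - 1 + 1 = s by omega] at hw
    obtain ⟨u, -, hus, huT, huF⟩ := hu
    obtain ⟨w, hsw, hwn, hwT, hwF⟩ := hw
    cases hc : c u w
    · have := nu_edge hus (Nat.zero_le _) hsw hwn huF hwF hc
      omega
    · have := nu_edge hus (Nat.zero_le _) hsw hwn huT hwT hc
      omega
  rcases hcut 2 le_rfl (by omega) with h0 | h0
  · -- type one everywhere
    have htype : ∀ s, 2 ≤ s → s + 2 ≤ n → nu c false 0 s < nu c true 0 s ∧
        nu c true s n < nu c false s n := by
      intro s hs
      induction s, hs using Nat.le_induction with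
      | base => intro _; exact h0
      | succ s hs ih =>
        intro hs'
        have h1 := ih (by omega)
        have h2 := nu_succ_right (c := c) (b := false) 0 s
        have h3 : nu c true 0 s ≤ nu c true 0 (s + 1) := nu_mono le_rfl (by omega)
        rcases hcut (s + 1) (by omega) (by omega) with h4 | h4
        · exact h4
        · omega
    exact final_case c hn IH hbad htype
  · have htype : ∀ s, 2 ≤ s → s + 2 ≤ n → nu c true 0 s < nu c false 0 s ∧
        nu c false s n < nu c true s n := by
      intro s hs
      induction s, hs using Nat.le_induction with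
      | base => intro _; exact h0
      | succ s hs ih =>
        intro hs'
        have h1 := ih (by omega)
        have h2 := nu_succ_right (c := c) (b := true) 0 s
        have h3 : nu c false 0 s ≤ nu c false 0 (s + 1) := nu_mono le_rfl (by omega)
        rcases hcut (s + 1) (by omega) (by omega) with h4 | h4
        · omega
        · exact h4
    refine final_case (fun i j => !c i j) hn IH ?_ ?_
    · simp only [nu_not, Bool.not_true, Bool.not_false]
      omega
    · intro s hs1 hs2
      simp only [nu_not, Bool.not_true, Bool.not_false]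
      exact htype s hs1 hs2

end Pool.Agent.H168R2.NN
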