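import Pool.Agent.H168R2.NN.Basic

/-! Gluing, starred vertices, shifting and the intermediate value argument. -/

namespace Pool.Agent.H168R2.NN

open Finset

variable {c : ℕ → ℕ → Bool} {b : Bool}

/-- Matching number of colour `b` of the interval `[lo, hi)`. -/
noncomputable def nu (c : ℕ → ℕ → Bool) (b : Bool) (lo hi : ℕ) : ℕ :=
  mx c b (Ico lo hi) (Ico lo hi)

theorem nu_mono {lo hi lo' hi' : ℕ} (h1 : lo' ≤ lo) (h2 : hi ≤ hi') :
    nu c b lo hi ≤ nu c b lo' hi' := by
  apply mx_mono <;> exact Ico_subset_Ico h1 h2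

theorem le_nu {lo hi : ℕ} {M : Finset (ℕ × ℕ)} (h : IsM c b M)
    (hs : ∀ e ∈ M, lo ≤ e.1 ∧ e.2 < hi) : M.card ≤ nu c b lo hi := by
  refine le_mx h fun e he => ?_
  have h1 := hs e he
  have h2 := (h.1 e he).1
  simp only [mem_Ico]; omega

theorem exists_nu (c : ℕ → ℕ → Bool) (b : Bool) (lo hi : ℕ) :
    ∃ M : Finset (ℕ × ℕ), IsM c b M ∧ (∀ e ∈ M, lo ≤ e.1 ∧ e.1 < e.2 ∧ e.2 < hi) ∧
      M.card = nu c b lo hi := by
  obtain ⟨M, h1, h2, h3⟩ := exists_mx c b (Ico lo hi) (Ico lo hi)
  refine ⟨M, h1, fun e he => ?_, h3⟩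
  have := h2 e he
  have := (h1.1 e he).1
  simp only [mem_Ico] at *
  omega

theorem nu_le {lo hi k : ℕ} (h : ∀ M : Finset (ℕ × ℕ), IsM c b M →
    (∀ e ∈ M, lo ≤ e.1 ∧ e.1 < e.2 ∧ e.2 < hi) → M.card ≤ k) : nu c b lo hi ≤ k := by
  obtain ⟨M, h1, h2, h3⟩ := exists_nu c b lo hi
  rw [← h3]; exact h M h1 h2

theorem nu_succ_right (lo hi : ℕ) : nu c b lo (hi + 1) ≤ nu c b lo hi + 1 := by
  obtain ⟨M, h1, h2, h3⟩ := exists_nu c b lo (hi + 1)
  have h4 : M.card ≤ mx c b (Ico lo hi) (insert hi (Ico lo hi)) := by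
    refine le_mx h1 fun e he => ?_
    have h5 := h2 e he
    simp only [mem_Ico, mem_insert]; omega
  have h5 := mx_insert_right (c := c) (b := b) hi (Ico lo hi) (Ico lo hi)
  unfold nu at *; omega

theorem nu_succ_left (lo hi : ℕ) : nu c b lo hi ≤ nu c b (lo + 1) hi + 1 := by
  obtain ⟨M, h1, h2, h3⟩ := exists_nu c b lo hi
  have h4 : M.card ≤ mx c b (insert lo (Ico (lo + 1) hi)) (Ico (lo + 1) hi) := by
    refine le_mx h1 fun e he => ?_
    have h5 := h2 e he
    simp only [mem_Ico, mem_insert]; omega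
  have h5 := mx_insert_left (c := c) (b := b) lo (Ico (lo + 1) hi) (Ico (lo + 1) hi)
  unfold nu at *; omega

theorem nu_add {lo mid hi : ℕ} (hl : lo ≤ mid) (hh : mid ≤ hi) :
    nu c b lo mid + nu c b mid hi ≤ nu c b lo hi := by
  obtain ⟨M, h1, h2, h3⟩ := exists_nu c b lo mid
  obtain ⟨N, h4, h5, h6⟩ := exists_nu c b mid hi
  have hb : ∀ e ∈ M, ∀ f ∈ N, Bef e f := by
    intro e he f hf
    have h7 := h2 e he
    have h8 := h5 f hf
    exact ⟨by omega, by omega, by omega⟩
  rw [← h3, ← h6, ← card_union_bef hb]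
  refine le_nu (h1.union h4 hb) fun e he => ?_
  rcases mem_union.1 he with he | he
  · have := h2 e he; omega
  · have := h5 e he; omega

/-- `u` is starred from the left side: a maximum matching of `[lo, hi)` has all its left ends
before `u` and avoids `u`. -/
def SR (c : ℕ → ℕ → Bool) (b : Bool) (lo hi u : ℕ) : Prop :=
  ∃ M : Finset (ℕ × ℕ), IsM c b M ∧ (∀ e ∈ M, lo ≤ e.1 ∧ e.1 < e.2 ∧ e.2 < hi) ∧
    M.card = nu c b lo hi ∧ ∀ e ∈ M, e.1 < u ∧ e.2 ≠ u

/-- The mirror image of `SR`. -/
def SL (c : ℕ → ℕ → Bool) (b : Bool) (lo hi u : ℕ) : Prop :=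
  ∃ M : Finset (ℕ × ℕ), IsM c b M ∧ (∀ e ∈ M, lo ≤ e.1 ∧ e.1 < e.2 ∧ e.2 < hi) ∧
    M.card = nu c b lo hi ∧ ∀ e ∈ M, u < e.2 ∧ e.1 ≠ u

theorem nu_edge {lo mid hi u w : ℕ} (hu : u < mid) (hlu : lo ≤ u) (hw : mid ≤ w) (hwh : w < hi)
    (h1 : SR c b lo mid u) (h2 : SL c b mid hi w) (hc : c u w = b) :
    nu c b lo mid + nu c b mid hi + 1 ≤ nu c b lo hi := by
  obtain ⟨M, hM, hMs, hMc, hMu⟩ := h1
  obtain ⟨N, hN, hNs, hNc, hNw⟩ := h2
  have hE : IsM c b {(u, w)} := isM_singleton (by omega) hc
  have hb1 : ∀ e ∈ M, ∀ f ∈ ({(u, w)} : Finset (ℕ × ℕ)), Bef e f := by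
    intro e he f hf
    rw [mem_singleton] at hf
    subst hf
    have h3 := hMs e he
    have h4 := hMu e he
    exact ⟨h4.1, by simp only; omega, h4.2⟩
  have hb2 : ∀ e ∈ M ∪ {(u, w)}, ∀ f ∈ N, Bef e f := by
    intro e he f hf
    have h5 := hNs f hf
    have h6 := hNw f hf
    rcases mem_union.1 he with he | he
    · have h3 := hMs e he
      exact ⟨by omega, by omega, by omega⟩
    · rw [mem_singleton] at he
      subst he
      exact ⟨by simp only; omega, h6.1, fun h => h6.2 h.symm⟩
  have hcard := card_union_bef hb2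
  rw [card_union_bef hb1, card_singleton] at hcard
  have := le_nu (lo := lo) (hi := hi) ((hM.union hE hb1).union hN hb2) (by
    intro e he
    rcases mem_union.1 he with he | he
    · rcases mem_union.1 he with he | he
      · have h3 := hMs e he; omega
      · rw [mem_singleton] at he
        subst he; simp only; omega
    · have h5 := hNs e he; omega)
  omega

theorem starR (c : ℕ → ℕ → Bool) {lo s : ℕ}
    (hno : ¬ ∃ u, lo ≤ u ∧ u < s ∧ SR c true lo s u ∧ SR c false lo s u) :
    ∃ c2 : ℕ → ℕ → Bool, ∀ b, nu c2 b lo (s + 1) ≤ nu c b lo s := by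
  classical
  refine ⟨fun i j => if j = s then (if SR c true lo s i then false else true) else c i j, ?_⟩
  intro b
  refine nu_le fun M hM hMs => ?_
  by_cases hs : ∃ e ∈ M, e.2 = s
  · obtain ⟨e, he, hes⟩ := hs
    by_contra hlt
    push Not at hlt
    have hother : ∀ f ∈ M.erase e, f.2 < s ∧ f.1 < e.1 ∧ f.2 ≠ e.1 := by
      intro f hf
      rw [mem_erase] at hf
      have h1 := hMs f hf.2
      rcases hM.2 f hf.2 e he hf.1 with h2 | h2
      · exact ⟨by have := h2.2.1; omega, h2.1, h2.2.2⟩
      · have := h2.2.1; omega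
    have hMe : IsM c b (M.erase e) := by
      refine ⟨?_, (hM.subset (erase_subset _ _)).2⟩
      intro f hf
      have h1 := (hM.subset (erase_subset e M)).1 f hf
      have h2 := (hother f hf).1
      refine ⟨h1.1, ?_⟩
      have h3 := h1.2
      simp only [h2.ne, if_false] at h3
      exact h3
    have hcard : (M.erase e).card = M.card - 1 := card_erase_of_mem he
    have hle : (M.erase e).card ≤ nu c b lo s := le_nu hMe fun f hf => by
      have h1 := hMs f (mem_of_mem_erase hf)
      have h2 := (hother f hf).1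
      omega
    have hSR : SR c b lo s e.1 := by
      refine ⟨M.erase e, hMe, fun f hf => ?_, by omega, fun f hf => ?_⟩
      · have h1 := hMs f (mem_of_mem_erase hf)
        have h2 := (hother f hf).1
        omega
      · exact (hother f hf).2
    have h1 := hMs e he
    have h2 := (hM.1 e he).2
    simp only [hes, if_true] at h2
    by_cases hT : SR c true lo s e.1
    · rw [if_pos hT] at h2
      subst h2
      exact hno ⟨e.1, h1.1, by omega, hT, hSR⟩
    · rw [if_neg hT] at h2
      subst h2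
      exact hT hSR
  · push Not at hs
    refine le_nu ⟨fun e he => ⟨(hM.1 e he).1, ?_⟩, hM.2⟩ fun e he => ?_
    · have h3 := (hM.1 e he).2
      simp only [hs e he, if_false] at h3
      exact h3
    · have h1 := hMs e he
      have h2 := hs e he
      omega

theorem starL (c : ℕ → ℕ → Bool) {s hi : ℕ}
    (hno : ¬ ∃ u, s + 1 ≤ u ∧ u < hi ∧ SL c true (s + 1) hi u ∧ SL c false (s + 1) hi u) :
    ∃ c2 : ℕ → ℕ → Bool, ∀ b, nu c2 b s hi ≤ nu c b (s + 1) hi := by
  classical
  refine ⟨fun i j => if i = s then (if SL c true (s + 1) hi j then false else true) else c i j, ?_⟩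
  intro b
  refine nu_le fun M hM hMs => ?_
  by_cases hs : ∃ e ∈ M, e.1 = s
  · obtain ⟨e, he, hes⟩ := hs
    by_contra hlt
    push Not at hlt
    have hother : ∀ f ∈ M.erase e, s < f.1 ∧ e.2 < f.2 ∧ f.1 ≠ e.2 := by
      intro f hf
      rw [mem_erase] at hf
      have h1 := hMs f hf.2
      rcases hM.2 f hf.2 e he hf.1 with h2 | h2
      · have := h2.1; omega
      · exact ⟨by have := h2.1; omega, h2.2.1, fun h => h2.2.2 h.symm⟩
    have hMe : IsM c b (M.erase e) := by
      refine ⟨?_, (hM.subset (erase_subset _ _)).2⟩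
      intro f hf
      have h1 := (hM.subset (erase_subset e M)).1 f hf
      have h2 := (hother f hf).1
      refine ⟨h1.1, ?_⟩
      have h3 := h1.2
      simp only [h2.ne', if_false] at h3
      exact h3
    have hcard : (M.erase e).card = M.card - 1 := card_erase_of_mem he
    have hle : (M.erase e).card ≤ nu c b (s + 1) hi := le_nu hMe fun f hf => by
      have h1 := hMs f (mem_of_mem_erase hf)
      have h2 := (hother f hf).1
      omega
    have hSL : SL c b (s + 1) hi e.2 := by
      refine ⟨M.erase e, hMe, fun f hf => ?_, by omega, fun f hf => ?_⟩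
      · have h1 := hMs f (mem_of_mem_erase hf)
        have h2 := (hother f hf).1
        omega
      · exact (hother f hf).2
    have h1 := hMs e he
    have h2 := (hM.1 e he).2
    simp only [hes, if_true] at h2
    by_cases hT : SL c true (s + 1) hi e.2
    · rw [if_pos hT] at h2
      subst h2
      exact hno ⟨e.2, by omega, h1.2.2, hT, hSL⟩
    · rw [if_neg hT] at h2
      subst h2
      exact hT hSL
  · push Not at hs
    refine le_nu ⟨fun e he => ⟨(hM.1 e he).1, ?_⟩, hM.2⟩ fun e he => ?_
    · have h3 := (hM.1 e he).2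
      simp only [hs e he, if_false] at h3
      exact h3
    · have h1 := hMs e he
      have h2 := hs e he
      omega

theorem nu_shift (c : ℕ → ℕ → Bool) (b : Bool) (lo n : ℕ) :
    nu (fun i j => c (i + lo) (j + lo)) b 0 n ≤ nu c b lo (lo + n) := by
  classical
  refine nu_le fun M hM hMs => ?_
  have hinj : Function.Injective (fun e : ℕ × ℕ => (e.1 + lo, e.2 + lo)) := by
    intro e f h
    have h1 := congrArg Prod.fst h
    have h2 := congrArg Prod.snd h
    simp only at h1 h2
    exact Prod.ext (by omega) (by omega)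
  rw [← card_image_of_injective M hinj]
  refine le_nu ⟨?_, ?_⟩ ?_
  · intro e he
    obtain ⟨f, hf, rfl⟩ := mem_image.1 he
    have := hM.1 f hf
    exact ⟨by simp only; omega, this.2⟩
  · intro e he f hf hne
    obtain ⟨e', he', rfl⟩ := mem_image.1 he
    obtain ⟨f', hf', rfl⟩ := mem_image.1 hf
    have hne' : e' ≠ f' := fun h => hne (by rw [h])
    rcases hM.2 e' he' f' hf' hne' with h | h
    · left; obtain ⟨h1, h2, h3⟩ := h
      exact ⟨by simp only; omega, by simp only; omega, by simp only; omega⟩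
    · right; obtain ⟨h1, h2, h3⟩ := h
      exact ⟨by simp only; omega, by simp only; omega, by simp only; omega⟩
  · intro e he
    obtain ⟨f, hf, rfl⟩ := mem_image.1 he
    have := hMs f hf
    simp only; omega

theorem mx_empty_left (Y : Finset ℕ) : mx c b ∅ Y = 0 := by
  apply Nat.le_zero.1
  refine mx_le fun M h1 h2 => ?_
  have : M = ∅ := by
    rw [Finset.eq_empty_iff_forall_notMem]
    intro e he
    exact absurd (h2 e he).1 (by simp)
  simp [this]

theorem mx_empty_right (X : Finset ℕ) : mx c b X ∅ = 0 := by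
  apply Nat.le_zero.1
  refine mx_le fun M h1 h2 => ?_
  have : M = ∅ := by
    rw [Finset.eq_empty_iff_forall_notMem]
    intro e he
    exact absurd (h2 e he).2 (by simp)
  simp [this]

/-- The key lemma. -/
theorem keyLemma (c : ℕ → ℕ → Bool) {m s a b : ℕ} (hR : nu c true 0 m ≤ a)
    (hB : nu c false 0 m ≤ b) (hsa : a + 1 ≤ s) (hsb : s + b + 1 ≤ m) :
    m ≤ 2 * a + b + 1 + nu c false 0 s ∨ m ≤ a + 2 * b + 1 + nu c true s m := by
  by_contra hcon
  push Not at hcon
  obtain ⟨hc1, hc2⟩ := hcon
  set N := a + b + 2 with hN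
  set bz : ℕ → ℕ := fun z => mx c false (Ico 0 (s - z)) (Ico 0 s) with hbz
  set rz : ℕ → ℕ := fun z => mx c true (Ico s m) (Ico (s + N - z) m) with hrz
  have hbzl : ∀ z, bz z ≤ nu c false 0 s := fun z =>
    mx_mono (Ico_subset_Ico le_rfl (by omega)) le_rfl
  have hrzl : ∀ z, z ≤ N → rz z ≤ nu c true s m := fun z hz =>
    mx_mono le_rfl (Ico_subset_Ico (by omega) le_rfl)
  have hbzlip : ∀ z, bz z ≤ bz (z + 1) + 1 := by
    intro z
    by_cases hz : z < s
    · have h1 : Ico 0 (s - z) ⊆ insert (s - z - 1) (Ico 0 (s - (z + 1))) := by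
        intro x hx
        simp only [mem_Ico, mem_insert] at hx ⊢; omega
      exact le_trans (mx_mono h1 le_rfl) (mx_insert_left _ _ _)
    · have : s - z = 0 := by omega
      simp only [hbz, this, Ico_self, mx_empty_left]; omega
  have hrzlip : ∀ z, z < N → rz (z + 1) ≤ rz z + 1 := by
    intro z hz
    have h1 : Ico (s + N - (z + 1)) m ⊆ insert (s + N - (z + 1)) (Ico (s + N - z) m) := by
      intro x hx
      simp only [mem_Ico, mem_insert] at hx ⊢; omega
    exact le_trans (mx_mono le_rfl h1) (mx_insert_right _ _ _)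
  have hβs : nu c false 0 s ≤ b := le_trans (nu_mono le_rfl (by omega)) hB
  have hρs : nu c true s m ≤ a := le_trans (nu_mono (by omega) le_rfl) hR
  have hC0 : rz (N - (m - s)) + (N - (m - s)) ≤ a + 1 + bz (N - (m - s)) := by
    by_cases h : N ≤ m - s
    · have h0 : N - (m - s) = 0 := by omega
      rw [h0]
      have := hrzl 0 (by omega)
      omega
    · have h1 : rz (N - (m - s)) = 0 := by
        have : s + N - (N - (m - s)) = m := by omega
        simp only [hrz, this, Ico_self, mx_empty_right]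
      omega
  have hCN : ¬ (rz N + N ≤ a + 1 + bz N) := by
    have := hbzl N; omega
  obtain ⟨z, hz0, hzN, hz1, hz2⟩ : ∃ z, N - (m - s) ≤ z ∧ z < N ∧ rz z + z ≤ a + 1 + bz z ∧
      ¬ (rz (z + 1) + (z + 1) ≤ a + 1 + bz (z + 1)) := by
    by_contra hno
    push Not at hno
    have hind : ∀ z, N - (m - s) ≤ z → z ≤ N → rz z + z ≤ a + 1 + bz z := by
      intro z hz
      induction z, hz using Nat.le_induction with
      | base => intro _; exact hC0
      | succ z hz ih => intro hz'; exact hno z hz (by omega) (ih (by omega))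
    exact hCN (hind N (by omega) le_rfl)
  have hbs : s ≤ z → bz z = 0 := by
    intro h
    have : s - z = 0 := by omega
    simp only [hbz, this, Ico_self, mx_empty_left]
  have hzs : z ≤ s := by
    by_contra h
    have := hbs (by omega)
    omega
  by_cases heq : rz z + z = a + 1 + bz z
  · refine crossing c (w := s - z) (s := s) (t := s + N - z) (m := m) (a := a) (b := b)
      (by omega) (by omega) (by omega) hR hB rfl rfl ?_ ?_ ?_ ?_
    · change a + bz z + 1 ≤ (s - (s - z)) + rz z; omega
    · change b + rz z + 1 ≤ (s + N - z - s) + bz z; omega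
    · change (s + N - z - s) + bz z + a + b < m
      have := hrzl z (by omega); omega
    · change (s - (s - z)) + rz z + a + b < m
      have := hbzl z; omega
  · have hlt : z < s := by
      by_contra h
      have := hbs (by omega)
      omega
    have h1 := hbzlip z
    have h2 := hrzlip z hzN
    have h3 := hrzl (z + 1) (by omega)
    have h4 := hbzl z
    refine crossing c (w := s - (z + 1)) (s := s) (t := s + N - z) (m := m) (a := a) (b := b)
      (by omega) (by omega) (by omega) hR hB rfl rfl ?_ ?_ ?_ ?_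
    · change a + bz (z + 1) + 1 ≤ (s - (s - (z + 1))) + rz z; omega
    · change b + rz z + 1 ≤ (s + N - z - s) + bz (z + 1); omega
    · change (s + N - z - s) + bz (z + 1) + a + b < m; omega
    · change (s - (s - (z + 1))) + rz z + a + b < m; omega

end Pool.Agent.H168R2.NN
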